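import Pool.Agent.H998.LT.Defs

set_option autoImplicit false

namespace Pool.Agent.H860.LT

open Function

theorem t_tsumZ : Pool.Agent.H998.LT.S_tsumZ := by
  intro m hpos hmono F hF hz
  have hm : Injective (fun l => (m l : ℤ)) := fun a b h => hmono.injective (by simpa using h)
  have hn : Injective (fun l => -(m l : ℤ)) := fun a b h => hmono.injective (by simpa using h)
  have s1 : Summable (fun l => F (m l)) := hF.comp_injective hm
  have s2 : Summable (fun l => F (-(m l : ℤ))) := hF.comp_injective hn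
  have h1 := (hasSum_extend_zero hm).2 s1.hasSum
  have h2 := (hasSum_extend_zero hn).2 s2.hasSum
  have h0 := hasSum_ite_eq (0 : ℤ) (F 0)
  refine ⟨s1.add s2, ?_⟩
  rw [s1.tsum_add s2, ← add_assoc, ← ((h0.add h1).add h2).tsum_eq]
  refine tsum_congr fun k => ?_
  by_cases hk0 : k = 0
  · subst hk0
    rw [extend_apply' _ _ _ (by
      rintro ⟨l, hl⟩
      have := hpos l
      omega), extend_apply' _ _ _ (by
      rintro ⟨l, hl⟩
      have := hpos l
      omega)]
    simp
  rw [if_neg hk0, zero_add]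
  by_cases hk1 : ∃ l, (m l : ℤ) = k
  · obtain ⟨l, rfl⟩ := hk1
    have e1 : extend (fun l => (m l : ℤ)) (fun l => F (m l)) 0 (m l : ℤ) = F (m l) :=
      hm.extend_apply _ _ l
    rw [e1, extend_apply' _ _ _ (by
      rintro ⟨l', hl⟩
      have := hpos l
      have := hpos l'
      omega)]
    simp
  · rw [extend_apply' _ _ _ (by simpa using hk1)]
    by_cases hk2 : ∃ l, -(m l : ℤ) = k
    · obtain ⟨l, rfl⟩ := hk2
      have e1 : extend (fun l => -(m l : ℤ)) (fun l => F (-(m l : ℤ))) 0 (-(m l : ℤ)) =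
          F (-(m l : ℤ)) := hn.extend_apply _ _ l
      rw [e1]
      simp
    · rw [extend_apply' _ _ _ (by simpa using hk2)]
      rw [hz k hk0 fun l => ⟨fun h => hk1 ⟨l, h.symm⟩, fun h => hk2 ⟨l, h.symm⟩⟩]
      simp

end Pool.Agent.H860.LT
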